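import Pool.Agent.D0H44.EC.Stm
import Pool.Agent.H343R2.Gauss

/-! Project EC (helper44), package OI: the oscillating integral. -/

set_option autoImplicit false

open MeasureTheory

namespace Pool.Agent.D0H42.EC

open H343 (ex)
open Pool.Agent.D0H44.FR

lemma hasDerivAt_ex (N : ℝ) (u : ℝ) :
    HasDerivAt (fun u : ℝ => ex (u / N)) ((((2 * Real.pi / N : ℝ) : ℂ) * Complex.I) * ex (u / N)) u := by
  have h1 : HasDerivAt (fun u : ℝ => (((2 * Real.pi * (u / N) : ℝ) : ℂ) * Complex.I))
      (((2 * Real.pi / N : ℝ) : ℂ) * Complex.I) u := by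
    have h2 : HasDerivAt (fun u : ℝ => 2 * Real.pi * (u / N)) (2 * Real.pi / N) u := by
      have h3 := ((hasDerivAt_id u).div_const N).const_mul (2 * Real.pi)
      refine h3.congr_deriv ?_
      ring
    exact h2.ofReal_comp.mul_const _
  have h4 := h1.cexp
  refine h4.congr_deriv ?_
  rw [mul_comm]
  rfl

theorem t_OI : S_W → Pool.Agent.D0H44.EC.S_OI := by
  rintro ⟨W1, W2, W3, W4, W5, W6, W7, W8⟩
  have hwc : Continuous w := continuous_iff_continuousAt.2 fun s => (W1 s).continuousAt
  have hw1c : Continuous w1 := continuous_iff_continuousAt.2 fun s => (W2 s).continuousAt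
  constructor
  · intro x N hx hN
    have hx0 : (0 : ℝ) < x := by linarith
    have hN0 : (0 : ℝ) < (N : ℝ) := by exact_mod_cast hN
    have hpi := Real.pi_gt_three
    obtain ⟨c, hc⟩ : ∃ c : ℂ, c = ((2 * Real.pi / N : ℝ) : ℂ) * Complex.I := ⟨_, rfl⟩
    have hcn : ‖c‖ = 2 * Real.pi / N := by
      rw [hc, norm_mul, Complex.norm_I, mul_one, Complex.norm_real, Real.norm_of_nonneg]
      positivity
    have hc0 : c ≠ 0 := by
      rw [← norm_pos_iff, hcn]
      positivity
    have hE : ∀ u, HasDerivAt (fun u : ℝ => ex (u / (N : ℝ))) (c * ex (u / (N : ℝ))) u := by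
      intro u
      rw [hc]
      exact hasDerivAt_ex N u
    have hEc : Continuous (fun u : ℝ => ex (u / (N : ℝ))) :=
      continuous_iff_continuousAt.2 fun u => (hE u).continuousAt
    have hux : ∀ u : ℝ, HasDerivAt (fun u : ℝ => u / x) (1 / x) u := fun u =>
      (hasDerivAt_id u).div_const x
    have hw : ∀ u : ℝ, HasDerivAt (fun u : ℝ => ((w (u / x) : ℝ) : ℂ))
        (((w1 (u / x) * (1 / x) : ℝ)) : ℂ) u := fun u =>
      (HasDerivAt.comp (h₂ := w) (h := fun u : ℝ => u / x) u (W1 (u / x)) (hux u)).ofReal_comp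
    have hw1 : ∀ u : ℝ, HasDerivAt (fun u : ℝ => ((w1 (u / x) : ℝ) : ℂ))
        (((w2 (u / x) * (1 / x) : ℝ)) : ℂ) u := fun u =>
      (HasDerivAt.comp (h₂ := w1) (h := fun u : ℝ => u / x) u (W2 (u / x)) (hux u)).ofReal_comp
    have hF : ∀ u ∈ Set.uIcc x (2 * x), HasDerivAt
        (fun u : ℝ => ((w (u / x) : ℝ) : ℂ) * ex (u / (N : ℝ)) / c -
          ((w1 (u / x) : ℝ) : ℂ) * ex (u / (N : ℝ)) / ((x : ℂ) * c ^ 2))
        (((w (u / x) : ℝ) : ℂ) * ex (u / (N : ℝ)) -
          ((w2 (u / x) : ℝ) : ℂ) * ex (u / (N : ℝ)) / ((x : ℂ) ^ 2 * c ^ 2)) u := by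
      intro u _
      have h1 := (((hw u).mul (hE u)).div_const c).sub
        (((hw1 u).mul (hE u)).div_const ((x : ℂ) * c ^ 2))
      refine h1.congr_deriv ?_
      have hxc : (x : ℂ) ≠ 0 := by exact_mod_cast hx0.ne'
      push_cast
      field_simp
      ring
    have hcont1 : Continuous (fun u : ℝ => ((w (u / x) : ℝ) : ℂ) * ex (u / (N : ℝ))) :=
      (Complex.continuous_ofReal.comp (hwc.comp (continuous_id.div_const x))).mul hEc
    have hcont2 : Continuous (fun u : ℝ => ((w2 (u / x) : ℝ) : ℂ) * ex (u / (N : ℝ)) /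
        ((x : ℂ) ^ 2 * c ^ 2)) :=
      ((Complex.continuous_ofReal.comp (W3.comp (continuous_id.div_const x))).mul hEc).div_const _
    have h2 := intervalIntegral.integral_eq_sub_of_hasDerivAt hF
      ((hcont1.sub hcont2).intervalIntegrable _ _)
    have hb1 : (w (2 * x / x) = 0 ∧ w1 (2 * x / x) = 0 ∧ w2 (2 * x / x) = 0) := by
      apply W7
      right
      rw [mul_div_assoc, div_self hx0.ne', mul_one]
    have hb2 : (w (x / x) = 0 ∧ w1 (x / x) = 0 ∧ w2 (x / x) = 0) := by
      apply W7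
      left
      rw [div_self hx0.ne']
    rw [hb1.1, hb1.2.1, hb2.1, hb2.2.1] at h2
    simp only [Complex.ofReal_zero, zero_mul, zero_div, sub_zero] at h2
    rw [intervalIntegral.integral_sub (hcont1.intervalIntegrable _ _)
      (hcont2.intervalIntegrable _ _), sub_eq_zero] at h2
    rw [h2]
    have h3 : ∀ u ∈ Set.uIoc x (2 * x), ‖((w2 (u / x) : ℝ) : ℂ) * ex (u / (N : ℝ)) /
        ((x : ℂ) ^ 2 * c ^ 2)‖ ≤ 120 / (x ^ 2 * (2 * Real.pi / N) ^ 2) := by
      intro u _
      rw [norm_div, norm_mul, norm_mul, norm_pow, norm_pow, hcn, H343.Gauss.norm_ex, mul_one,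
        Complex.norm_real, Complex.norm_real, Real.norm_eq_abs, Real.norm_of_nonneg hx0.le]
      gcongr
      exact W6 _
    refine (intervalIntegral.norm_integral_le_of_norm_le_const h3).trans ?_
    have e1 : |2 * x - x| = x := by
      rw [show 2 * x - x = x by ring, abs_of_pos hx0]
    rw [e1]
    have e2 : 120 / (x ^ 2 * (2 * Real.pi / N) ^ 2) * x = 30 * (N : ℝ) ^ 2 / (Real.pi ^ 2 * x) := by
      field_simp
      ring
    rw [e2, div_le_div_iff₀ (by positivity) hx0]
    have hpi2 : (9 : ℝ) ≤ Real.pi ^ 2 := by nlinarith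
    have h5 : 0 ≤ (N : ℝ) ^ 2 * x := by positivity
    nlinarith [mul_le_mul_of_nonneg_right hpi2 h5]
  · intro x hx
    have hx0 : (0 : ℝ) < x := by linarith
    have hc1 : Continuous (fun u : ℝ => w (u / x)) := hwc.comp (continuous_id.div_const x)
    have h1 : ∫ u in (5 / 4 * x)..(9 / 5 * x), w (u / x) ≤ ∫ u in x..(2 * x), w (u / x) := by
      apply intervalIntegral.integral_mono_interval (by linarith) (by linarith) (by linarith)
      · exact Filter.Eventually.of_forall fun u => (W4 _).1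
      · exact hc1.intervalIntegrable _ _
    have h2 : ∫ u in (5 / 4 * x)..(9 / 5 * x), (1 / 4 : ℝ) ≤
        ∫ u in (5 / 4 * x)..(9 / 5 * x), w (u / x) := by
      apply intervalIntegral.integral_mono_on (by linarith)
      · exact continuous_const.intervalIntegrable _ _
      · exact hc1.intervalIntegrable _ _
      · intro u hu
        apply W8
        · rw [le_div_iff₀ hx0]
          exact hu.1
        · rw [div_le_iff₀ hx0]
          exact hu.2
    rw [intervalIntegral.integral_const, smul_eq_mul] at h2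
    linarith

end Pool.Agent.D0H42.EC
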