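import Pool.Agent.D0H44.EC.Stm
import Pool.Agent.D0H51.FR.IB
import Pool.Agent.D0H42.EC.OI

/-! Project EC (helper44), package PD: the inner product with the test function. -/

set_option autoImplicit false

open Finset MeasureTheory

namespace Pool.Agent.D0H42.EC

open H343 (ex)
open Pool.Agent.D0H44.FR
open Pool.Agent.D0H44.EM (ps Er)
open Pool.Agent.D0H44.EC (gg S_PD)

section

variable {g G : ℝ → ℂ} {x : ℝ}

lemma ind_ii (hG : Continuous G) (v s t : ℝ) :
    IntervalIntegrable (fun u => if v ≤ u then G u else 0) volume s t := by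
  have hset : (fun u => if v ≤ u then G u else 0) = (Set.Ici v).indicator G := by
    funext u
    rw [Set.indicator_apply]
    rfl
  rw [hset, intervalIntegrable_iff]
  have h := hG.intervalIntegrable (μ := volume) s t
  rw [intervalIntegrable_iff] at h
  exact h.indicator measurableSet_Ici

lemma ind_int (hG : Continuous G) (hg : ∀ u, HasDerivAt g (G u) u)
    (h0 : ∀ u, (u ≤ x ∨ 2 * x ≤ u) → g u = 0) (hx : 0 < x) (v : ℝ) :
    ∫ u in x..(2 * x), (if v ≤ u then G u else 0) = -g v := by
  have hle : x ≤ 2 * x := by linarith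
  have hint : ∀ s t : ℝ, ∫ u in s..t, G u = g t - g s := fun s t =>
    intervalIntegral.integral_eq_sub_of_hasDerivAt (fun u _ => hg u) (hG.intervalIntegrable _ _)
  have hw2 : g (2 * x) = 0 := h0 _ (Or.inr le_rfl)
  have hw1 : g x = 0 := h0 _ (Or.inl le_rfl)
  have hset : (fun u => if v ≤ u then G u else 0) = (Set.Ici v).indicator G := by
    funext u
    rw [Set.indicator_apply]
    rfl
  rw [hset, intervalIntegral.integral_of_le hle, setIntegral_indicator measurableSet_Ici]
  rcases le_or_gt v x with a1 | a1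
  · have e : Set.Ioc x (2 * x) ∩ Set.Ici v = Set.Ioc x (2 * x) := by
      ext u
      simp only [Set.mem_inter_iff, Set.mem_Ioc, Set.mem_Ici]
      constructor
      · rintro ⟨h, -⟩; exact h
      · intro h; exact ⟨h, by linarith [h.1]⟩
    rw [e, ← intervalIntegral.integral_of_le hle, hint, hw2, hw1, h0 v (Or.inl a1)]
    simp
  rcases le_or_gt v (2 * x) with a2 | a2
  · have e : Set.Ioc x (2 * x) ∩ Set.Ici v = Set.Icc v (2 * x) := by
      ext u
      simp only [Set.mem_inter_iff, Set.mem_Ioc, Set.mem_Ici, Set.mem_Icc]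
      constructor
      · rintro ⟨h, h'⟩; exact ⟨h', h.2⟩
      · rintro ⟨h, h'⟩; exact ⟨⟨by linarith, h'⟩, h⟩
    rw [e, integral_Icc_eq_integral_Ioc, ← intervalIntegral.integral_of_le a2, hint, hw2]
    ring
  · have e : Set.Ioc x (2 * x) ∩ Set.Ici v = ∅ := by
      ext u
      simp only [Set.mem_inter_iff, Set.mem_Ioc, Set.mem_Ici, Set.mem_empty_iff_false, iff_false]
      rintro ⟨h, h'⟩
      linarith [h.2]
    rw [e, setIntegral_empty, h0 v (Or.inr a2.le)]
    simp

lemma u_int (hG : Continuous G) (hg : ∀ u, HasDerivAt g (G u) u)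
    (h0 : ∀ u, (u ≤ x ∨ 2 * x ≤ u) → g u = 0) :
    ∫ u in x..(2 * x), (u : ℂ) * G u = -∫ u in x..(2 * x), g u := by
  have hgc : Continuous g := continuous_iff_continuousAt.2 fun u => (hg u).continuousAt
  have h1 : ∫ u in x..(2 * x), (g u + (u : ℂ) * G u) =
      ((2 * x : ℝ) : ℂ) * g (2 * x) - (x : ℂ) * g x := by
    apply intervalIntegral.integral_eq_sub_of_hasDerivAt (f := fun u : ℝ => (u : ℂ) * g u)
    · intro u _
      have e2 : HasDerivAt (fun u : ℝ => (u : ℂ) * g u) (1 * g u + (u : ℂ) * G u) u :=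
        ((hasDerivAt_id u).ofReal_comp).mul (hg u)
      refine e2.congr_deriv ?_
      ring
    · apply Continuous.intervalIntegrable
      exact hgc.add (Complex.continuous_ofReal.mul hG)
  rw [h0 _ (Or.inr le_rfl), h0 _ (Or.inl le_rfl), intervalIntegral.integral_add] at h1
  · linear_combination h1
  · exact hgc.intervalIntegrable _ _
  · exact (Complex.continuous_ofReal.mul hG).intervalIntegrable _ _

end

theorem t_PD : S_W → S_PD := by
  intro hW x q a r M hx hq hr hM
  have hx0 : 0 < x := by linarith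
  have hle : x ≤ 2 * x := by linarith
  have hwc : Continuous w := continuous_iff_continuousAt.2 fun s => (hW.1 s).continuousAt
  have hw1c : Continuous w1 := continuous_iff_continuousAt.2 fun s => (hW.2.1 s).continuousAt
  obtain ⟨N, hN⟩ : ∃ N : ℝ, N = ((r * q : ℕ) : ℝ) := ⟨_, rfl⟩
  have hEc : Continuous (fun u : ℝ => ex (u / N)) :=
    continuous_iff_continuousAt.2 fun u => (hasDerivAt_ex N u).continuousAt
  obtain ⟨g, hgdef⟩ : ∃ g : ℝ → ℂ, g = fun u : ℝ => ((w (u / x) : ℝ) : ℂ) * ex (u / N) := ⟨_, rfl⟩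
  obtain ⟨G, hGdef⟩ : ∃ G : ℝ → ℂ, G = gg x q r := ⟨_, rfl⟩
  have hG : Continuous G := by
    rw [hGdef]
    unfold Pool.Agent.D0H44.EC.gg
    rw [← hN]
    exact ((Complex.continuous_ofReal.comp ((hw1c.comp (continuous_id.div_const x)).div_const x)).mul
      hEc).add ((Complex.continuous_ofReal.comp (hwc.comp (continuous_id.div_const x))).mul
        (continuous_const.mul hEc))
  have hg : ∀ u, HasDerivAt g (G u) u := by
    intro u
    have h1 : HasDerivAt (fun u : ℝ => ((w (u / x) : ℝ) : ℂ)) (((w1 (u / x) * (1 / x) : ℝ)) : ℂ) u :=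
      (HasDerivAt.comp (h₂ := w) (h := fun u : ℝ => u / x) u (hW.1 (u / x))
        ((hasDerivAt_id u).div_const x)).ofReal_comp
    have h2 := h1.mul (hasDerivAt_ex N u)
    rw [hgdef, hGdef]
    refine h2.congr_deriv ?_
    unfold Pool.Agent.D0H44.EC.gg
    rw [← hN]
    push_cast
    ring
  have h0 : ∀ u, (u ≤ x ∨ 2 * x ≤ u) → g u = 0 := by
    intro u hu
    rw [hgdef]
    have h1 : w (u / x) = 0 := by
      refine (hW.2.2.2.2.2.2.1 _ ?_).1
      rcases hu with hu | hu
      · left
        rw [div_le_one hx0]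
        exact hu
      · right
        rw [le_div_iff₀ hx0]
        exact hu
    simp only [h1, Complex.ofReal_zero, zero_mul]
  have e1 : ∫ u in x..(2 * x), ((Er q a u : ℝ) : ℂ) * gg x q r u =
      ∫ u in x..(2 * x), ((∑ n ∈ (Icc 1 M).filter (fun n => n ≡ a [MOD q]),
        ((ArithmeticFunction.vonMangoldt n : ℝ) : ℂ) * (if (n : ℝ) ≤ u then G u else 0)) -
        (1 / (Nat.totient q : ℂ)) * ((u : ℂ) * G u)) := by
    apply intervalIntegral.integral_congr
    intro u hu
    rw [Set.uIcc_of_le hle, Set.mem_Icc] at hu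
    simp only
    unfold Er
    rw [Pool.Agent.D0H51.FR.ps_eq q a M u (by linarith [hu.1]) (by linarith [hu.2]), ← hGdef]
    rw [Complex.ofReal_sub, sub_mul, Complex.ofReal_sum, sum_mul]
    congr 1
    · apply sum_congr rfl
      intro n _
      split_ifs <;> simp
    · push_cast
      ring
  have hid : IntervalIntegrable (fun u : ℝ => (u : ℂ) * G u) volume x (2 * x) :=
    (Complex.continuous_ofReal.mul hG).intervalIntegrable _ _
  rw [e1, intervalIntegral.integral_sub, intervalIntegral.integral_finsetSum,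
    intervalIntegral.integral_const_mul, u_int hG hg h0]
  · simp_rw [intervalIntegral.integral_const_mul, ind_int hG hg h0 hx0]
    rw [hgdef, ← hN]
    simp only [mul_neg, sum_neg_distrib, sub_neg_eq_add]
  · intro n _
    exact (ind_ii hG _ _ _).const_mul _
  · have hs := IntervalIntegrable.sum ((Icc 1 M).filter (fun n => n ≡ a [MOD q]))
      (f := fun (n : ℕ) (u : ℝ) => ((ArithmeticFunction.vonMangoldt n : ℝ) : ℂ) *
        (if (n : ℝ) ≤ u then G u else 0)) (μ := volume) (a := x) (b := 2 * x)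
      (fun n _ => (ind_ii hG _ _ _).const_mul _)
    have e : (fun u : ℝ => ∑ n ∈ (Icc 1 M).filter (fun n => n ≡ a [MOD q]),
        ((ArithmeticFunction.vonMangoldt n : ℝ) : ℂ) * (if (n : ℝ) ≤ u then G u else 0)) =
        ∑ n ∈ (Icc 1 M).filter (fun n => n ≡ a [MOD q]), fun u : ℝ =>
        ((ArithmeticFunction.vonMangoldt n : ℝ) : ℂ) * (if (n : ℝ) ≤ u then G u else 0) := by
      funext u
      rw [Finset.sum_apply]
    rw [e]
    exact hs
  · exact hid.const_mul _

end Pool.Agent.D0H42.EC
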