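import Pool.Agent.D0H44.EC.Stm
import Pool.Agent.H343R2.Gauss

/-! Project EC (helper44), package PH: the phase. -/

set_option autoImplicit false

namespace Pool.Agent.D0H42.EC

open H343 (ex)

theorem t_PH : Pool.Agent.D0H44.EC.S_PH := by
  intro q a r n j hq hr h1 h2
  obtain ⟨l, hl⟩ := Nat.modEq_iff_dvd.1 h1.symm
  obtain ⟨t, ht⟩ := Nat.modEq_iff_dvd.1 h2.symm
  have hl' : (n : ℝ) - a = q * l := by exact_mod_cast congrArg (fun z : ℤ => (z : ℝ)) hl
  have ht' : (j : ℝ) * q - 1 = r * t := by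
    have := congrArg (fun z : ℤ => (z : ℝ)) ht
    push_cast at this
    exact this
  have hq0 : (q : ℝ) ≠ 0 := by
    have : 0 < q := hq
    positivity
  have hr0 : (r : ℝ) ≠ 0 := by
    have : 0 < r := hr
    positivity
  have e : (n : ℝ) / ((r * q : ℕ) : ℝ) =
      ((a : ℝ) / ((r * q : ℕ) : ℝ) - ((a * j : ℕ) : ℝ) / r) + ((n * j : ℕ) : ℝ) / r
        + ((-(l * t) : ℤ) : ℝ) := by
    push_cast
    field_simp
    linear_combination (1 - (j : ℝ) * q) * hl' - (q : ℝ) * l * ht'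
  rw [e, H343.Gauss.ex_add, H343.Gauss.ex_int, mul_one, H343.Gauss.ex_add]

end Pool.Agent.D0H42.EC
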